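import Mathlib

namespace Pool.Agent.Results.MP_106823_nt.Div

def traj (x : ℕ) : ℕ → ℕ
  | 0 => x
  | n + 1 => (3 * traj x n + 1) / 2 ^ padicValNat 2 (3 * traj x n + 1)

def F (u : ℕ → ℚ) (j : ℕ) : ℕ → ℕ → ℚ
  | 0, k => u k
  | m + 1, k => (4 / 9) ^ j * F u j m (k + 1) - (4 / 9) ^ m * F u j m k

def tri : ℕ → ℕ
  | 0 => 0
  | n + 1 => tri n + n

lemma tri_eq (n : ℕ) : 2 * tri n + n = n ^ 2 := by
  induction n with
  | zero => rfl
  | succ n ih => simp only [tri]; nlinarith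

def U (q : ℚ) : Prop := ∃ (a : ℤ) (s : ℕ), Odd a ∧ q = a / 9 ^ s

section
variable {u : ℕ → ℚ} (hu : ∀ k, 1 ≤ k → u k = 1 + 4 / 3 * (4 / 9) ^ (k + 1) * u (k + 1))
include hu

lemma F_step (j m : ℕ) : ∀ k, 1 ≤ k → F u j m k =
    ∏ i ∈ Finset.range m, ((4 / 9 : ℚ) ^ j - (4 / 9) ^ i) +
      4 / 3 * (4 / 9) ^ (k + 1) * F u (j + 1) m (k + 1) := by
  induction m with
  | zero => intro k hk; simpa [F] using hu k hk
  | succ m ih =>
    intro k hk
    simp only [F]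
    rw [ih k hk, ih (k + 1) (by omega), Finset.prod_range_succ]
    ring

lemma F_iter (m k : ℕ) (hk : 1 ≤ k) (j : ℕ) (hj : j ≤ m) :
    F u 0 m k = (4 / 3) ^ j * (4 / 9) ^ (j * k + tri (j + 1)) * F u j m (k + j) := by
  induction j with
  | zero => simp [tri]
  | succ j ih =>
    rw [ih (by omega), F_step hu j m (k + j) (by omega),
      Finset.prod_eq_zero (Finset.mem_range.2 (show j < m by omega)) (sub_self _)]
    rw [show tri (j + 1 + 1) = tri (j + 1) + (j + 1) from rfl]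
    rw [show k + (j + 1) = k + j + 1 from rfl]
    ring
end

lemma F_unit {u : ℕ → ℚ} (hU : ∀ k, 1 ≤ k → U (u k)) (m n : ℕ) (hn : n ≤ m) :
    ∀ k, 1 ≤ k → ∃ e, U e ∧ F u m n k = (4 / 9) ^ tri n * e := by
  induction n with
  | zero => intro k hk; exact ⟨u k, hU k hk, by simp [F, tri]⟩
  | succ n ih =>
    intro k hk
    obtain ⟨_, ⟨a, s, ha, rfl⟩, h1⟩ := ih (by omega) k hk
    obtain ⟨_, ⟨b, t, hb, rfl⟩, h2⟩ := ih (by omega) (k + 1) (by omega)
    obtain ⟨d, rfl⟩ : ∃ d, m = n + 1 + d := Nat.exists_eq_add_of_le hn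
    refine ⟨_, ⟨4 ^ (d + 1) * b * 9 ^ s - a * 9 ^ (d + 1 + t), d + 1 + t + s, ?_, rfl⟩, ?_⟩
    · apply Even.sub_odd
      · rw [pow_succ, mul_assoc, mul_assoc]
        exact Even.mul_left (Even.mul_right (by decide) _) _
      · exact ha.mul (Odd.pow (by decide))
    · simp only [F, tri]
      rw [h1, h2]
      push_cast
      simp only [div_pow, pow_add]
      field_simp

lemma F_int {u : ℕ → ℚ} (hZ : ∀ k, 1 ≤ k → ∃ a : ℤ, u k = a) (n : ℕ) :
    ∀ k, 1 ≤ k → ∃ a : ℤ, 9 ^ tri n * F u 0 n k = a := by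
  induction n with
  | zero => intro k hk; simpa [F, tri] using hZ k hk
  | succ n ih =>
    intro k hk
    obtain ⟨a, h1⟩ := ih k hk
    obtain ⟨b, h2⟩ := ih (k + 1) (by omega)
    refine ⟨9 ^ n * b - 4 ^ n * a, ?_⟩
    simp only [F, tri]
    push_cast
    rw [← h1, ← h2]
    simp only [div_pow, pow_add]
    field_simp

lemma F_bd {u : ℕ → ℚ} {B : ℕ → ℚ} (hB : Monotone B) (hb : ∀ k, |u k| ≤ B k) (n : ℕ) :
    ∀ k, |F u 0 n k| ≤ 2 ^ n * B (k + n) := by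
  induction n with
  | zero => intro k; simpa [F] using hb k
  | succ n ih =>
    intro k
    simp only [F]
    have h1 := ih k
    have h2 := ih (k + 1)
    have h3 : B (k + n) ≤ B (k + (n + 1)) := hB (by omega)
    rw [show k + 1 + n = k + (n + 1) by omega] at h2
    have h4 : (4 / 9 : ℚ) ^ n ≤ 1 := pow_le_one₀ (by norm_num) (by norm_num)
    have h5 : (0 : ℚ) ≤ (4 / 9 : ℚ) ^ n := by positivity
    have h6 : (0 : ℚ) ≤ 2 ^ n := by positivity
    refine (abs_sub _ _).trans ?_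
    rw [abs_mul, abs_mul, abs_of_nonneg h5, pow_zero, abs_one, one_mul, pow_succ]
    nlinarith [abs_nonneg (F u 0 n k), mul_le_mul_of_nonneg_left h3 h6]

lemma main {u : ℕ → ℚ} (hu : ∀ k, 1 ≤ k → u k = 1 + 4 / 3 * (4 / 9) ^ (k + 1) * u (k + 1))
    (hZ : ∀ k, 1 ≤ k → ∃ a : ℤ, Odd a ∧ u k = a) (c : ℕ)
    (hb : ∀ k, |u k| ≤ (3 / 2) ^ ((k + 1) ^ 2) * c) : False := by
  have key : ∀ m, 1 ≤ m → 2 ^ (8 * m ^ 2 + 5 * m + 1) ≤ 3 ^ (5 * m ^ 2 + 3 * m + 1) * c := by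
    intro m hm
    have h1 := F_iter hu m m hm m le_rfl
    obtain ⟨_, ⟨a, s, ha, rfl⟩, h2⟩ := F_unit (u := u) (fun k hk => by
      obtain ⟨a, ha, h⟩ := hZ k hk
      exact ⟨a, 0, ha, by simpa using h⟩) m m le_rfl (m + m) (by omega)
    obtain ⟨N, h3⟩ := F_int (u := u) (fun k hk => by
      obtain ⟨a, -, h⟩ := hZ k hk
      exact ⟨a, h⟩) m m hm
    have h4 := F_bd (u := u) (B := fun k => (3 / 2) ^ ((k + 1) ^ 2) * c) (fun i j hij => by
      have : (3 / 2 : ℚ) ^ ((i + 1) ^ 2) ≤ (3 / 2) ^ ((j + 1) ^ 2) :=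
        pow_le_pow_right₀ (by norm_num) (Nat.pow_le_pow_left (by omega) 2)
      exact mul_le_mul_of_nonneg_right this (Nat.cast_nonneg c)) hb m m
    have ht := tri_eq m
    have h5 : N * (3 ^ m * 9 ^ (2 * m ^ 2 + s)) = 2 ^ (4 * m ^ 2 + 2 * m) * (9 ^ tri m * a) := by
      have : (N : ℚ) * (3 ^ m * 9 ^ (2 * m ^ 2 + s)) =
          2 ^ (4 * m ^ 2 + 2 * m) * (9 ^ tri m * a) := by
        rw [← h3, h1, h2, mul_assoc ((4 / 3 : ℚ) ^ m), ← mul_assoc ((4 / 9 : ℚ) ^ _), ← pow_add,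
          show m * m + tri (m + 1) + tri m = 2 * m ^ 2 by simp only [tri]; nlinarith,
          show (2 : ℚ) ^ (4 * m ^ 2 + 2 * m) = 4 ^ (2 * m ^ 2) * 4 ^ m by
            rw [← pow_add, show (4 : ℚ) = 2 ^ 2 by norm_num, ← pow_mul]; congr 1; ring]
        simp only [div_pow, pow_add]
        field_simp
      exact_mod_cast this
    have h6 : (2 : ℤ) ^ (4 * m ^ 2 + 2 * m) ∣ N := by
      have hc : IsCoprime ((2 : ℤ) ^ (4 * m ^ 2 + 2 * m)) (3 ^ m * 9 ^ (2 * m ^ 2 + s)) := by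
        apply IsCoprime.pow_left
        apply IsCoprime.mul_right <;> apply IsCoprime.pow_right <;> norm_num [Int.isCoprime_iff_gcd_eq_one]
      exact hc.dvd_of_dvd_mul_right ⟨_, h5⟩
    have h7 : N ≠ 0 := by
      rintro rfl
      have ha0 : a ≠ 0 := by rintro rfl; simp at ha
      have : (2 : ℤ) ^ (4 * m ^ 2 + 2 * m) * (9 ^ tri m * a) ≠ 0 := by positivity
      exact this (by rw [← h5]; simp)
    have h8 : (2 : ℚ) ^ (4 * m ^ 2 + 2 * m) ≤ |(N : ℚ)| := by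
      have := Int.le_of_dvd (abs_pos.2 h7) ((dvd_abs _ _).2 h6)
      exact_mod_cast this
    rw [← h3, abs_mul, abs_of_nonneg (by positivity)] at h8
    have h9 := h8.trans (mul_le_mul_of_nonneg_left h4 (by positivity))
    have h10 : (2 : ℚ) ^ (8 * m ^ 2 + 5 * m + 1) ≤ 3 ^ (5 * m ^ 2 + 3 * m + 1) * c := by
      have e1 : (2 : ℚ) ^ (8 * m ^ 2 + 5 * m + 1) * 2 ^ m =
          2 ^ (4 * m ^ 2 + 2 * m) * 2 ^ ((m + m + 1) ^ 2) := by
        rw [← pow_add, ← pow_add]; congr 1; ring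
      have e2 : (3 : ℚ) ^ (5 * m ^ 2 + 3 * m + 1) = 9 ^ tri m * 3 ^ ((m + m + 1) ^ 2) := by
        rw [show (9 : ℚ) = 3 ^ 2 by norm_num, ← pow_mul, ← pow_add]; congr 1; nlinarith
      have e3 := mul_le_mul_of_nonneg_right h9
        (show (0 : ℚ) ≤ 2 ^ ((m + m + 1) ^ 2) by positivity)
      rw [← e1] at e3
      have e4 : (9 : ℚ) ^ tri m * (2 ^ m * ((3 / 2) ^ ((m + m + 1) ^ 2) * c)) *
          2 ^ ((m + m + 1) ^ 2) = 3 ^ (5 * m ^ 2 + 3 * m + 1) * c * 2 ^ m := by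
        rw [e2, div_pow]; field_simp
      rw [e4] at e3
      exact le_of_mul_le_mul_right e3 (by positivity)
    exact_mod_cast h10
  have g1 : ∀ m : ℕ, (m + 6) * 27 ^ m ≤ 6 * 32 ^ m := by
    intro m
    induction m with
    | zero => simp
    | succ m ih =>
      rw [pow_succ, pow_succ]
      nlinarith [pow_pos (show 0 < 27 by norm_num) m]
  have h := key (10 * c + 1) (by omega)
  generalize hm : 10 * c + 1 = m at h
  have g2 : 243 ^ (m ^ 2) ≤ 256 ^ (m ^ 2) := Nat.pow_le_pow_left (by norm_num) _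
  have e1 : 2 ^ (8 * m ^ 2 + 5 * m + 1) = 256 ^ (m ^ 2) * 32 ^ m * 2 := by
    rw [pow_add, pow_add, pow_mul, pow_mul]; norm_num
  have e2 : 3 ^ (5 * m ^ 2 + 3 * m + 1) = 243 ^ (m ^ 2) * 27 ^ m * 3 := by
    rw [pow_add, pow_add, pow_mul, pow_mul]; norm_num
  rw [e1, e2] at h
  have g3 := g1 m
  have p1 : 0 < 243 ^ (m ^ 2) := by positivity
  have p2 : 0 < 27 ^ m := by positivity
  generalize 243 ^ (m ^ 2) = A at *
  generalize 256 ^ (m ^ 2) = B at *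
  generalize 27 ^ m = C at *
  generalize 32 ^ m = D at *
  have k1 : A * D * 2 ≤ A * C * 3 * c := le_trans (by gcongr) h
  have k2 : D * 2 ≤ C * 3 * c := by
    apply Nat.le_of_mul_le_mul_left _ p1
    nlinarith
  subst hm
  nlinarith

lemma traj_spec (x n : ℕ) :
    2 ^ padicValNat 2 (3 * traj x n + 1) * traj x (n + 1) = 3 * traj x n + 1 :=
  Nat.mul_div_cancel' pow_padicValNat_dvd

lemma traj_odd (x n : ℕ) : Odd (traj x (n + 1)) := by
  rw [← Nat.not_even_iff_odd]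
  rintro ⟨r, hr⟩
  have h := traj_spec x n
  refine pow_succ_padicValNat_not_dvd (p := 2) (n := 3 * traj x n + 1) (by omega) ⟨r, ?_⟩
  rw [pow_succ]
  nth_rw 1 [← h]
  rw [hr]; ring

theorem result : ¬ ∃ x : ℕ, Odd x ∧ ∀ n, 1 ≤ n →
    padicValNat 2 (3 * traj x (n - 1) + 1) = if IsSquare n ∧ 4 ≤ n then 2 else 1 := by
  rintro ⟨x, -, h⟩
  have h' : ∀ n, padicValNat 2 (3 * traj x n + 1) =
      if IsSquare (n + 1) ∧ 4 ≤ n + 1 then 2 else 1 := fun n => h (n + 1) (by omega)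
  have hle : ∀ n, ((traj x n : ℚ) + 1) ≤ (3 / 2) ^ n * ((x + 1 : ℕ) : ℚ) := by
    intro n
    induction n with
    | zero => simp [traj]
    | succ n ih =>
      have h1 := traj_spec x n
      have h2 : 2 * traj x (n + 1) ≤ 3 * traj x n + 1 := by
        rw [h'] at h1
        split_ifs at h1 <;> omega
      have h3 : 2 * (traj x (n + 1) : ℚ) ≤ 3 * traj x n + 1 := by exact_mod_cast h2
      rw [pow_succ]
      linarith
  have hrun : ∀ k i, i ≤ 2 * k →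
      (traj x (k ^ 2 + i) : ℚ) + 1 = (3 / 2) ^ i * (traj x (k ^ 2) + 1) := by
    intro k i
    induction i with
    | zero => simp
    | succ i ih =>
      intro hi
      have h1 := traj_spec x (k ^ 2 + i)
      rw [h', if_neg] at h1
      · have h3 : 2 ^ 1 * (traj x (k ^ 2 + i + 1) : ℚ) = 3 * traj x (k ^ 2 + i) + 1 := by
          exact_mod_cast h1
        have := ih (by omega)
        rw [← add_assoc, pow_succ (3 / 2 : ℚ)]
        linarith
      · rintro ⟨⟨r, hr⟩, -⟩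
        have a1 : k < r := by nlinarith
        nlinarith
  have hsq : ∀ k, 1 ≤ k → 4 * traj x ((k + 1) ^ 2) = 3 * traj x (k ^ 2 + 2 * k) + 1 := by
    intro k hk
    have h1 := traj_spec x (k ^ 2 + 2 * k)
    rw [h', if_pos ⟨⟨k + 1, by ring⟩, by nlinarith⟩] at h1
    rw [show (k + 1) ^ 2 = k ^ 2 + 2 * k + 1 by ring]
    omega
  refine main (u := fun k => -(3 / 2) * ((traj x (k ^ 2 + 2 * k) : ℚ) + 1)) ?_ ?_ (x + 1) ?_
  · intro k hk
    have h1 := hrun (k + 1) (2 * (k + 1)) le_rfl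
    have h2 : 4 * (traj x ((k + 1) ^ 2) : ℚ) = 3 * traj x (k ^ 2 + 2 * k) + 1 := by
      exact_mod_cast hsq k hk
    have h3 : (4 / 9 : ℚ) ^ (k + 1) * (3 / 2) ^ (2 * (k + 1)) = 1 := by
      rw [pow_mul, ← mul_pow]; norm_num
    rw [h1]
    linear_combination (1 / 2) * h2 + 2 * ((traj x ((k + 1) ^ 2) : ℚ) + 1) * h3
  · intro k hk
    have h1 := hsq k hk
    have h2 := traj_odd x (k ^ 2 + 2 * k)
    rw [show k ^ 2 + 2 * k + 1 = (k + 1) ^ 2 by ring] at h2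
    obtain ⟨r, hr⟩ := h2
    obtain ⟨t, ht⟩ : ∃ t, traj x (k ^ 2 + 2 * k) = 4 * t + 1 :=
      ⟨traj x (k ^ 2 + 2 * k) / 4, by omega⟩
    refine ⟨-3 * (2 * t + 1), ⟨-3 * t - 2, by ring⟩, ?_⟩
    rw [ht]; push_cast; ring
  · intro k
    have h1 := hle (k ^ 2 + 2 * k)
    rw [show (k + 1) ^ 2 = k ^ 2 + 2 * k + 1 by ring, pow_succ (3 / 2 : ℚ), abs_of_nonpos]
    · linarith
    · have : (0 : ℚ) ≤ traj x (k ^ 2 + 2 * k) := Nat.cast_nonneg _
      linarith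

end Pool.Agent.Results.MP_106823_nt.Div
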